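import Pool.Agent.Y548.OF.Ord

set_option autoImplicit false

/-! Problem MP_1308e3_lc, question Q1, answered negatively in a strong form: there is a computable
field `F` with a low ordering such that `F` does not even embed, as a field, in any field with
computable domain, computable operations and a computable ordering.

The definitions of `ComputableField`, `ComputableField.Carrier`, `IsOrdering` and `orderCode` are
in `Pool/Agent/Y548/OF/Pres.lean`; those of Turing reducibility `TLe` (through Mathlib's
`TuringReducible`) and of the Turing jump `jump` are in `Pool/Agent/Helper227/Defs.lean` and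
`Pool/Agent/Helper227/RD/Jump.lean`. -/

namespace Pool.Agent.Results.MP_1308e3_lc.NoComputableCopy

open Pool.Agent.Y548.OF Pool.Agent.Helper227

open Classical in
/-- A set of natural numbers is low if its Turing jump is Turing reducible to the jump of the
empty set. -/
def LowSet (S : ℕ → Prop) : Prop :=
  TLe (jump fun n => decide (S n)) (jump fun _ => false)

/-- There are a computable field `F` and a low ordering `lt` of `F` such that no computable ordered
field `(K, ltK)` contains an isomorphic copy of the field `F`; in particular `(F, lt)` has no
computable copy, and neither has `F` with any other ordering. -/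
theorem result : ∃ (F : ComputableField) (lt : F.Carrier → F.Carrier → Prop),
    IsOrdering lt ∧ LowSet (orderCode lt) ∧
    ∀ (K : ComputableField) (ltK : K.Carrier → K.Carrier → Prop), IsOrdering ltK →
      ComputablePred (orderCode ltK) → IsEmpty (F.Carrier →+* K.Carrier) := by
  classical
  obtain ⟨r, hr⟩ := exists_good
  obtain ⟨X, hX, hlow⟩ := exists_low_cone
  refine ⟨FC hr, ltX hr X, isOrdering_ltX hr hX, ?_, fun K ltK h1 h2 => ⟨fun f => ?_⟩⟩
  · exact (orderCode_tLe hr X).jump.trans hlow
  · exact not_embed hr K ltK h1 h2 (f.comp (eR hr).symm.toRingHom)

end Pool.Agent.Results.MP_1308e3_lc.NoComputableCopy
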